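import Pool.Agent.H539R3.IEP.Shrink

/-!
# Decidability of the logic
-/

namespace H539R3.IEP
open Form

/-- The valuation coded by a number. -/
def Vof (v i w : ℕ) : Prop := v / 2 ^ Nat.pair i w % 2 = 1

open Classical in
/-- Truth value at the world `k % (N + 2)` of the formula with number `k / (N + 2)`; here
`p = (m, N, v)`. -/
noncomputable def tv (p : ℕ × ℕ × ℕ) (k : ℕ) : Bool :=
  decide (p.1 ≤ p.2.1 ∧
    sat (R p.1 p.2.1) (Vof p.2.2) (decode (k / (p.2.1 + 2))) (k % (p.2.1 + 2)))

theorem tv_eq (m N v c w : ℕ) (hm : m ≤ N) (hw : w < N + 2) :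
    tv (m, N, v) (c * (N + 2) + w) = true ↔ sat (R m N) (Vof v) (decode c) w := by
  have h1 : (c * (N + 2) + w) / (N + 2) = c := by
    rw [mul_comm, Nat.mul_add_div (by omega), Nat.div_eq_of_lt hw, add_zero]
  have h2 : (c * (N + 2) + w) % (N + 2) = w := by
    rw [mul_comm, Nat.mul_add_mod, Nat.mod_eq_of_lt hw]
  unfold tv
  simp only [h1, h2, decide_eq_true_eq]
  exact and_iff_right hm

instance (m N w v : ℕ) : Decidable (R m N w v) := by unfold R; infer_instance

instance (v i w : ℕ) : Decidable (Vof v i w) := by unfold Vof; infer_instance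

/-- Number of the formula treated at stage `l.length`. -/
def fN (p : ℕ × ℕ × ℕ) (l : List Bool) : ℕ := l.length / (p.2.1 + 2)

/-- World treated at stage `l.length`. -/
def wN (p : ℕ × ℕ × ℕ) (l : List Bool) : ℕ := l.length % (p.2.1 + 2)

/-- Look up the truth value of formula `c` at world `w`. -/
def look (p : ℕ × ℕ × ℕ) (l : List Bool) (c w : ℕ) : Bool := l.getD (c * (p.2.1 + 2) + w) false

def stepVar (p : ℕ × ℕ × ℕ) (l : List Bool) : Prop :=
  Vof p.2.2 (fN p l / 3) (wN p l)

def stepImp (p : ℕ × ℕ × ℕ) (l : List Bool) : Prop :=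
  (look p l (Nat.unpair (fN p l / 3)).1 (wN p l) = true →
      look p l (Nat.unpair (fN p l / 3)).2 (wN p l) = true)

def stepBox (p : ℕ × ℕ × ℕ) (l : List Bool) : Prop :=
  ∀ u, u < p.2.1 + 2 → (R p.1 p.2.1 (wN p l) u → look p l (fN p l / 3 - 1) u = true)

def stepProp (p : ℕ × ℕ × ℕ) (l : List Bool) : Prop :=
  p.1 ≤ p.2.1 ∧ ¬ (fN p l = 0) ∧ ((fN p l % 3 = 1 ∧ stepVar p l) ∨ (¬ (fN p l % 3 = 1) ∧
    ((fN p l % 3 = 2 ∧ stepImp p l) ∨ (¬ (fN p l % 3 = 2) ∧ stepBox p l))))

theorem look_eq (m N v k c w : ℕ) (hm : m ≤ N) (hw : w < N + 2) (hc : c < k / (N + 2)) :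
    look (m, N, v) ((List.range k).map (tv (m, N, v))) c w = true ↔
      sat (R m N) (Vof v) (decode c) w := by
  have h1 : c * (N + 2) + w < k := by
    have h2 : (c + 1) * (N + 2) ≤ k := by
      calc (c + 1) * (N + 2) ≤ k / (N + 2) * (N + 2) := Nat.mul_le_mul_right _ hc
        _ ≤ k := Nat.div_mul_le_self _ _
    rw [add_mul] at h2
    omega
  rw [← tv_eq m N v c w hm hw]
  unfold look
  rw [List.getD_eq_getElem?_getD]
  simp [h1]

theorem stepProp_iff (p : ℕ × ℕ × ℕ) (k : ℕ) :
    stepProp p ((List.range k).map (tv p)) ↔ tv p k = true := by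
  obtain ⟨m, N, v⟩ := p
  by_cases hm : m ≤ N
  swap
  · unfold stepProp tv
    simp [hm]
  have hf : fN (m, N, v) ((List.range k).map (tv (m, N, v))) = k / (N + 2) := by simp [fN]
  have hw : wN (m, N, v) ((List.range k).map (tv (m, N, v))) = k % (N + 2) := by simp [wN]
  have hwl : k % (N + 2) < N + 2 := Nat.mod_lt _ (by omega)
  have htv : tv (m, N, v) k = true ↔
      sat (R m N) (Vof v) (decode (k / (N + 2))) (k % (N + 2)) := by
    unfold tv
    simp only [decide_eq_true_eq]
    exact and_iff_right hm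
  rw [htv]
  unfold stepProp stepVar stepImp stepBox
  rw [hf, hw]
  generalize hc : k / (N + 2) = c
  generalize k % (N + 2) = w at hwl
  rw [and_iff_right hm]
  rcases Nat.eq_zero_or_pos c with h0 | h0
  · subst h0
    rw [decode_zero]
    simp [sat]
  · rw [and_iff_right (by omega : ¬ c = 0)]
    obtain ⟨n, hn | hn | hn⟩ : ∃ n, c = 3 * n + 1 ∨ c = 3 * n + 2 ∨ c = 3 * n + 3 := by
      refine ⟨(c - 1) / 3, ?_⟩
      omega
    · have e0 : c % 3 = 1 := by omega
      have e1 : c / 3 = n := by omega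
      rw [e1, hn, decode_var]
      rw [hn] at e0
      simp only [e0, true_and, not_true_eq_false, false_and, or_false]
      exact Iff.rfl
    · have e0 : c % 3 = 2 := by omega
      have e1 : c / 3 = n := by omega
      have h1 := Nat.unpair_left_le n
      have h2 := Nat.unpair_right_le n
      rw [e1, look_eq m N v k _ w hm hwl (by omega), look_eq m N v k _ w hm hwl (by omega),
        hn, decode_imp]
      rw [hn] at e0
      simp only [e0, OfNat.ofNat_ne_one, not_false_eq_true, true_and, false_and, false_or,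
        not_true_eq_false, or_false]
      exact Iff.rfl
    · have e0 : c % 3 = 0 := by omega
      have e1 : c / 3 - 1 = n := by omega
      rw [e1]
      have hb : (∀ u, u < N + 2 → (R m N w u →
          look (m, N, v) ((List.range k).map (tv (m, N, v))) n u = true)) ↔
          sat (R m N) (Vof v) (decode c) w := by
        rw [hn, decode_box]
        constructor
        · intro h u hu
          have hu1 : u < N + 2 := by unfold R at hu; omega
          exact (look_eq m N v k n u hm hu1 (by omega)).1 (h u hu1 hu)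
        · intro h u hu1 hu
          exact (look_eq m N v k n u hm hu1 (by omega)).2 (h u hu)
      have e2 : ¬ (c % 3 = 1) := by omega
      have e3 : ¬ (c % 3 = 2) := by omega
      simp only [e2, e3, false_and, not_false_eq_true, true_and, false_or]
      exact hb

/-! ### Primitive recursiveness -/

section
variable {α : Type} [Primcodable α]

theorem primrec_pow : Primrec₂ ((· ^ ·) : ℕ → ℕ → ℕ) := Primrec₂.unpaired'.1 Nat.Primrec.pow

theorem pp_eq {f g : α → ℕ} (hf : Primrec f) (hg : Primrec g) :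
    PrimrecPred fun a => f a = g a := Primrec.eq.comp hf hg

theorem pp_le {f g : α → ℕ} (hf : Primrec f) (hg : Primrec g) :
    PrimrecPred fun a => f a ≤ g a := Primrec.nat_le.comp hf hg

theorem pp_lt {f g : α → ℕ} (hf : Primrec f) (hg : Primrec g) :
    PrimrecPred fun a => f a < g a := Primrec.nat_lt.comp hf hg

theorem pp_true {f : α → Bool} (hf : Primrec f) : PrimrecPred fun a => f a = true :=
  Primrec.eq.comp hf (Primrec.const true)

theorem pp_imp {p q : α → Prop} (hp : PrimrecPred p) (hq : PrimrecPred q) :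
    PrimrecPred fun a => (p a → q a) := (hp.not.or hq).of_eq fun a => by tauto

theorem pp_ite {p q r : α → Prop} (hp : PrimrecPred p) (hq : PrimrecPred q)
    (hr : PrimrecPred r) : PrimrecPred fun a => ((p a ∧ q a) ∨ (¬ p a ∧ r a)) :=
  (hp.and hq).or (hp.not.and hr)

theorem pp_forall {f : α → ℕ} {P : ℕ → α → Prop} (hf : Primrec f) (hP : PrimrecRel P) :
    PrimrecPred fun a => ∀ x, x < f a → P x a :=
  (hP.forall_mem_list.comp (Primrec.list_range.comp hf) Primrec.id).of_eq (by simp)

theorem pp_R {m N w v : α → ℕ} (hm : Primrec m) (hN : Primrec N) (hw : Primrec w)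
    (hv : Primrec v) : PrimrecPred fun a => R (m a) (N a) (w a) (v a) := by
  have hN1 := Primrec.succ.comp hN
  exact ((pp_le hw hN).and (pp_lt hv hw)).or
    (((pp_lt hm hN).and ((pp_eq hw hN).and (pp_eq hv hN1))).or
      ((pp_eq hw hN1).and (pp_lt hv hm)))

theorem pp_Vof {v i w : α → ℕ} (hv : Primrec v) (hi : Primrec i) (hw : Primrec w) :
    PrimrecPred fun a => Vof (v a) (i a) (w a) :=
  pp_eq (Primrec.nat_mod.comp (Primrec.nat_div.comp hv
    (primrec_pow.comp (Primrec.const 2) (Primrec₂.natPair.comp hi hw))) (Primrec.const 2))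
    (Primrec.const 1)

theorem primrec_look {p : α → ℕ × ℕ × ℕ} {l : α → List Bool} {c w : α → ℕ} (hp : Primrec p)
    (hl : Primrec l) (hc : Primrec c) (hw : Primrec w) :
    Primrec fun a => look (p a) (l a) (c a) (w a) := by
  have hN : Primrec fun a => (p a).2.1 + 2 :=
    Primrec.nat_add.comp (Primrec.fst.comp (Primrec.snd.comp hp)) (Primrec.const 2)
  exact (Primrec.list_getD false).comp hl
    (Primrec.nat_add.comp (Primrec.nat_mul.comp hc hN) hw)

theorem primrec_fN {p : α → ℕ × ℕ × ℕ} {l : α → List Bool} (hp : Primrec p)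
    (hl : Primrec l) : Primrec fun a => fN (p a) (l a) :=
  Primrec.nat_div.comp (Primrec.list_length.comp hl)
    (Primrec.nat_add.comp (Primrec.fst.comp (Primrec.snd.comp hp)) (Primrec.const 2))

theorem primrec_wN {p : α → ℕ × ℕ × ℕ} {l : α → List Bool} (hp : Primrec p)
    (hl : Primrec l) : Primrec fun a => wN (p a) (l a) :=
  Primrec.nat_mod.comp (Primrec.list_length.comp hl)
    (Primrec.nat_add.comp (Primrec.fst.comp (Primrec.snd.comp hp)) (Primrec.const 2))

end

theorem pp_stepVar : PrimrecPred fun q : (ℕ × ℕ × ℕ) × List Bool => stepVar q.1 q.2 := by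
  have hp : Primrec fun q : (ℕ × ℕ × ℕ) × List Bool => q.1 := Primrec.fst
  have hl : Primrec fun q : (ℕ × ℕ × ℕ) × List Bool => q.2 := Primrec.snd
  exact pp_Vof (Primrec.snd.comp (Primrec.snd.comp hp))
    (Primrec.nat_div.comp (primrec_fN hp hl) (Primrec.const 3)) (primrec_wN hp hl)

theorem pp_stepImp : PrimrecPred fun q : (ℕ × ℕ × ℕ) × List Bool => stepImp q.1 q.2 := by
  have hp : Primrec fun q : (ℕ × ℕ × ℕ) × List Bool => q.1 := Primrec.fst
  have hl : Primrec fun q : (ℕ × ℕ × ℕ) × List Bool => q.2 := Primrec.snd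
  have hun : Primrec fun q : (ℕ × ℕ × ℕ) × List Bool => Nat.unpair (fN q.1 q.2 / 3) :=
    Primrec.unpair.comp (Primrec.nat_div.comp (primrec_fN hp hl) (Primrec.const 3))
  exact pp_imp (pp_true (primrec_look hp hl (Primrec.fst.comp hun) (primrec_wN hp hl)))
    (pp_true (primrec_look hp hl (Primrec.snd.comp hun) (primrec_wN hp hl)))

theorem pp_stepBox : PrimrecPred fun q : (ℕ × ℕ × ℕ) × List Bool => stepBox q.1 q.2 := by
  have hp : Primrec fun q : (ℕ × ℕ × ℕ) × List Bool => q.1 := Primrec.fst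
  have hl : Primrec fun q : (ℕ × ℕ × ℕ) × List Bool => q.2 := Primrec.snd
  refine pp_forall (f := fun q : (ℕ × ℕ × ℕ) × List Bool => q.1.2.1 + 2)
    (P := fun u (q : (ℕ × ℕ × ℕ) × List Bool) => R q.1.1 q.1.2.1 (wN q.1 q.2) u →
      look q.1 q.2 (fN q.1 q.2 / 3 - 1) u = true)
    (Primrec.nat_add.comp (Primrec.fst.comp (Primrec.snd.comp hp)) (Primrec.const 2)) ?_
  have hp' : Primrec fun r : ℕ × ((ℕ × ℕ × ℕ) × List Bool) => r.2.1 := hp.comp Primrec.snd
  have hl' : Primrec fun r : ℕ × ((ℕ × ℕ × ℕ) × List Bool) => r.2.2 := hl.comp Primrec.snd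
  have hu : Primrec fun r : ℕ × ((ℕ × ℕ × ℕ) × List Bool) => r.1 := Primrec.fst
  have h1 : PrimrecPred fun r : ℕ × ((ℕ × ℕ × ℕ) × List Bool) =>
      R r.2.1.1 r.2.1.2.1 (wN r.2.1 r.2.2) r.1 :=
    pp_R (Primrec.fst.comp hp') (Primrec.fst.comp (Primrec.snd.comp hp'))
      (primrec_wN hp' hl') hu
  have h2 : PrimrecPred fun r : ℕ × ((ℕ × ℕ × ℕ) × List Bool) =>
      look r.2.1 r.2.2 (fN r.2.1 r.2.2 / 3 - 1) r.1 = true :=
    pp_true (primrec_look hp' hl' (Primrec.nat_sub.comp
      (Primrec.nat_div.comp (primrec_fN hp' hl') (Primrec.const 3)) (Primrec.const 1)) hu)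
  exact pp_imp h1 h2

theorem pp_stepProp : PrimrecPred fun q : (ℕ × ℕ × ℕ) × List Bool => stepProp q.1 q.2 := by
  have hp : Primrec fun q : (ℕ × ℕ × ℕ) × List Bool => q.1 := Primrec.fst
  have hl : Primrec fun q : (ℕ × ℕ × ℕ) × List Bool => q.2 := Primrec.snd
  have hf := primrec_fN hp hl
  have hm3 : Primrec fun q : (ℕ × ℕ × ℕ) × List Bool => fN q.1 q.2 % 3 :=
    Primrec.nat_mod.comp hf (Primrec.const 3)
  have hA := pp_eq hf (Primrec.const 0)
  have hB := pp_eq hm3 (Primrec.const 1)
  have hC := pp_eq hm3 (Primrec.const 2)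
  have h0 : PrimrecPred fun q : (ℕ × ℕ × ℕ) × List Bool => q.1.1 ≤ q.1.2.1 :=
    pp_le (Primrec.fst.comp hp) (Primrec.fst.comp (Primrec.snd.comp hp))
  exact h0.and (hA.not.and (pp_ite hB pp_stepVar (pp_ite hC pp_stepImp pp_stepBox)))

open Classical in
theorem primrec_tv : Primrec₂ tv := by
  refine Primrec.nat_strong_rec tv (g := fun p l => some (decide (stepProp p l))) ?_ ?_
  · exact Primrec.option_some.comp (pp_stepProp.decide)
  · intro p k
    congr 1
    rw [Bool.eq_iff_iff, decide_eq_true_iff]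
    exact stepProp_iff p k

/-- Number of bits needed. -/
def bits (c N : ℕ) : ℕ := Nat.pair (c + 1) (N + 2)

open Classical in
/-- Every valuation agrees on the relevant variables and worlds with a coded one. -/
theorem exists_code (V : ℕ → ℕ → Prop) (c N : ℕ) :
    ∃ v, v < 2 ^ bits c N ∧ ∀ i w, i ≤ c → w ≤ N + 1 → (V i w ↔ Vof v i w) := by
  refine ⟨Nat.ofBits (n := bits c N)
    (fun k => decide (V (Nat.unpair k).1 (Nat.unpair k).2)), Nat.ofBits_lt_two_pow _, ?_⟩
  intro i w hi hw
  have hlt : Nat.pair i w < bits c N :=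
    lt_trans (Nat.pair_lt_pair_left w (by omega : i < c + 1))
      (Nat.pair_lt_pair_right (c + 1) (by omega : w < N + 2))
  have h := Nat.testBit_ofBits_lt
    (fun k : Fin (bits c N) => decide (V (Nat.unpair k).1 (Nat.unpair k).2)) (Nat.pair i w) hlt
  rw [Nat.testBit_eq_decide_div_mod_eq] at h
  simp only [Nat.unpair_pair] at h
  unfold Vof
  constructor
  · intro hV
    rw [decide_eq_true hV] at h
    exact of_decide_eq_true h
  · intro hV
    rw [decide_eq_true hV] at h
    exact of_decide_eq_true h.symm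

theorem sat_congr {m N c : ℕ} (hmN : m ≤ N) {V V' : ℕ → ℕ → Prop}
    (h : ∀ i w, i ≤ c → w ≤ N + 1 → (V i w ↔ V' i w)) (a : Form) :
    code a ≤ c → ∀ w, w ≤ N + 1 → (sat (R m N) V a w ↔ sat (R m N) V' a w) := by
  induction a with
  | var i =>
    intro hc w hw
    simp only [code] at hc
    exact h i w (by omega) hw
  | bot => intro _ w _; exact Iff.rfl
  | imp a b iha ihb =>
    intro hC w hw
    have h1 := Nat.left_le_pair (code a) (code b)
    have h2 := Nat.right_le_pair (code a) (code b)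
    simp only [code] at hC
    exact imp_congr (iha (by omega) w hw) (ihb (by omega) w hw)
  | box a ih =>
    intro hC w hw
    simp only [code] at hC
    refine forall_congr' fun v => ?_
    constructor
    · intro h1 hv
      have hv1 : v ≤ N + 1 := by unfold R at hv; omega
      exact (ih (by omega) v hv1).1 (h1 hv)
    · intro h1 hv
      have hv1 : v ≤ N + 1 := by unfold R at hv; omega
      exact (ih (by omega) v hv1).2 (h1 hv)

/-- A bounded description of the logic. -/
def BLg (c : ℕ) : Prop :=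
  ∀ N, N < 2 * c + 10 → ∀ m, m < N + 1 → (D m N → ∀ v, v < 2 ^ bits c N →
    tv (m, N, v) (c * (N + 2) + N) = true)

theorem mem_Lg_iff (a : Form) : a ∈ Lg ↔ BLg (code a) := by
  constructor
  · intro h N _ m _ hD v _
    rw [tv_eq _ _ _ _ _ (D_le hD) (by omega), decode_code]
    exact h m N hD _
  · intro h m N hD V
    by_contra hV
    obtain ⟨N', hN', m', hm', hD', V', hV'⟩ := ref_bound a N m hD ⟨V, hV⟩
    obtain ⟨v, hv, hv2⟩ := exists_code V' (code a) N'
    apply hV'
    rw [sat_congr (D_le hD') hv2 a le_rfl N' (by omega)]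
    have := h N' hN' m' hm' hD' v hv
    rwa [tv_eq _ _ _ _ _ (D_le hD') (by omega), decode_code] at this

theorem pp_NoHalt {α : Type} [Primcodable α] {N e : α → ℕ} (hN : Primrec N) (he : Primrec e) :
    PrimrecPred fun a => NoHalt (N a) (e a) := by
  have h : Primrec fun a => Nat.Partrec.Code.evaln (N a)
      (Denumerable.ofNat Nat.Partrec.Code (e a)) 0 :=
    Nat.Partrec.Code.primrec_evaln.comp
      (Primrec.pair (Primrec.pair hN ((Primrec.ofNat Nat.Partrec.Code).comp he))
        (Primrec.const 0))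
  exact Primrec.eq.comp h (Primrec.const none)

theorem pp_D {α : Type} [Primcodable α] {m N : α → ℕ} (hm : Primrec m) (hN : Primrec N) :
    PrimrecPred fun a => D (m a) (N a) := by
  have hm3 := Primrec.nat_mod.comp hm (Primrec.const 3)
  have hN2 := Primrec.nat_mod.comp hN (Primrec.const 2)
  have hH := pp_NoHalt hN (Primrec.nat_div.comp hm (Primrec.const 3))
  exact (pp_eq hm hN).or ((pp_le (Primrec.nat_add.comp hm (Primrec.const 2)) hN).and
    ((pp_eq hm3 (Primrec.const 2)).or
      (((pp_eq hm3 (Primrec.const 0)).and ((pp_eq hN2 (Primrec.const 0)).and hH)).or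
        ((pp_eq hm3 (Primrec.const 1)).and ((pp_eq hN2 (Primrec.const 1)).and hH)))))

theorem pp_BLg : PrimrecPred BLg := by
  unfold BLg bits
  refine pp_forall (α := ℕ) (f := fun c => 2 * c + 10)
    (P := fun N c => ∀ m, m < N + 1 → (D m N → ∀ v, v < 2 ^ Nat.pair (c + 1) (N + 2) →
      tv (m, N, v) (c * (N + 2) + N) = true))
    (Primrec.nat_add.comp (Primrec.nat_mul.comp (Primrec.const 2) Primrec.id)
      (Primrec.const 10)) ?_
  refine pp_forall (α := ℕ × ℕ) (f := fun q => q.1 + 1)
    (P := fun m q => (D m q.1 → ∀ v, v < 2 ^ Nat.pair (q.2 + 1) (q.1 + 2) →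
      tv (m, q.1, v) (q.2 * (q.1 + 2) + q.1) = true))
    (Primrec.succ.comp Primrec.fst) ?_
  refine pp_imp (α := ℕ × (ℕ × ℕ)) (pp_D Primrec.fst (Primrec.fst.comp Primrec.snd)) ?_
  refine pp_forall (α := ℕ × (ℕ × ℕ)) (f := fun r => 2 ^ Nat.pair (r.2.2 + 1) (r.2.1 + 2))
    (P := fun v r => tv (r.1, r.2.1, v) (r.2.2 * (r.2.1 + 2) + r.2.1) = true) ?_ ?_
  · exact primrec_pow.comp (Primrec.const 2) (Primrec₂.natPair.comp
      (Primrec.succ.comp (Primrec.snd.comp Primrec.snd))
      (Primrec.nat_add.comp (Primrec.fst.comp Primrec.snd) (Primrec.const 2)))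
  · refine pp_true (α := ℕ × (ℕ × (ℕ × ℕ))) ?_
    have h1 : Primrec fun s : ℕ × (ℕ × (ℕ × ℕ)) => s.1 := Primrec.fst
    have h2 : Primrec fun s : ℕ × (ℕ × (ℕ × ℕ)) => s.2.1 := Primrec.fst.comp Primrec.snd
    have h3 : Primrec fun s : ℕ × (ℕ × (ℕ × ℕ)) => s.2.2.1 :=
      Primrec.fst.comp (Primrec.snd.comp Primrec.snd)
    have h4 : Primrec fun s : ℕ × (ℕ × (ℕ × ℕ)) => s.2.2.2 :=
      Primrec.snd.comp (Primrec.snd.comp Primrec.snd)
    exact primrec_tv.comp (Primrec.pair h2 (Primrec.pair h3 h1))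
      (Primrec.nat_add.comp (Primrec.nat_mul.comp h4
        (Primrec.nat_add.comp h3 (Primrec.const 2))) h3)

/-- The logic is decidable. -/
theorem decidableLogic_Lg : DecidableLogic Lg := by
  have h : PrimrecPred fun a : Form => BLg (code a) :=
    pp_BLg.comp (Primrec.of_equiv (e := equivNat))
  exact ComputablePred.of_eq h.computablePred fun a => (mem_Lg_iff a).symm

end H539R3.IEP
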