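import Mathlib

/-!
# Normal modal logics, interpolants and decidability: definitions
-/

namespace H539R3.IEP

/-- Modal formulas: propositional variables `var i`, `⊥`, implication and `□`
(the other connectives are abbreviations, see below). -/
inductive Form : Type
  | var : ℕ → Form
  | bot : Form
  | imp : Form → Form → Form
  | box : Form → Form

namespace Form

/-- `¬ a`. -/
def neg (a : Form) : Form := imp a bot

/-- `⊤`. -/
def top : Form := neg bot

/-- `a ∧ b`. -/
def and (a b : Form) : Form := neg (imp a (neg b))

/-- `a ∨ b`. -/
def or (a b : Form) : Form := imp (neg a) b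

/-- `◇ a`. -/
def dia (a : Form) : Form := neg (box (neg a))

/-- The variables occurring in a formula. -/
def vars : Form → Set ℕ
  | var i => {i}
  | bot => ∅
  | imp a b => vars a ∪ vars b
  | box a => vars a

/-- Uniform substitution. -/
def subst (s : ℕ → Form) : Form → Form
  | var i => s i
  | bot => bot
  | imp a b => imp (subst s a) (subst s b)
  | box a => box (subst s a)

/-- The Goedel number of a formula. -/
def code : Form → ℕ
  | bot => 0
  | var i => 3 * i + 1
  | imp a b => 3 * Nat.pair (code a) (code b) + 2
  | box a => 3 * code a + 3

/-- The formula with a given Goedel number. -/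
def decode (n : ℕ) : Form :=
  if h0 : n = 0 then bot
  else if n % 3 = 1 then var (n / 3)
  else if h2 : n % 3 = 2 then
    imp (decode (Nat.unpair (n / 3)).1) (decode (Nat.unpair (n / 3)).2)
  else box (decode (n / 3 - 1))
termination_by n
decreasing_by
  · have := Nat.unpair_left_le (n / 3)
    omega
  · have := Nat.unpair_right_le (n / 3)
    omega
  · omega

theorem decode_zero : decode 0 = bot := by
  rw [decode]; simp

theorem decode_var (i : ℕ) : decode (3 * i + 1) = var i := by
  rw [decode]
  have h1 : (3 * i + 1) % 3 = 1 := by omega
  have h2 : (3 * i + 1) / 3 = i := by omega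
  simp [h1, h2]

theorem decode_imp (k : ℕ) :
    decode (3 * k + 2) = imp (decode (Nat.unpair k).1) (decode (Nat.unpair k).2) := by
  rw [decode]
  have h1 : (3 * k + 2) % 3 = 2 := by omega
  have h2 : (3 * k + 2) / 3 = k := by omega
  simp [h1, h2]

theorem decode_box (k : ℕ) : decode (3 * k + 3) = box (decode k) := by
  rw [decode]
  have h1 : (3 * k + 3) % 3 = 0 := by omega
  have h2 : (3 * k + 3) / 3 - 1 = k := by omega
  simp [h1]

theorem decode_code (a : Form) : decode (code a) = a := by
  induction a with
  | var i => exact decode_var i
  | bot => exact decode_zero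
  | imp a b iha ihb =>
    rw [code, decode_imp, Nat.unpair_pair]
    simp [iha, ihb]
  | box a ih => rw [code, decode_box, ih]

theorem code_decode (n : ℕ) : code (decode n) = n := by
  induction n using Nat.strong_induction_on with
  | _ n ih =>
    rcases Nat.eq_zero_or_pos n with h | h
    · subst h; rw [decode_zero]; rfl
    · obtain ⟨k, hk | hk | hk⟩ : ∃ k, n = 3 * k + 1 ∨ n = 3 * k + 2 ∨ n = 3 * k + 3 := by
        refine ⟨(n - 1) / 3, ?_⟩
        omega
      · subst hk; rw [decode_var]; rfl
      · subst hk
        have h1 := Nat.unpair_left_le k
        have h2 := Nat.unpair_right_le k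
        rw [decode_imp, code, ih _ (by omega), ih _ (by omega), Nat.pair_unpair]
      · subst hk
        rw [decode_box, code, ih _ (by omega)]

/-- The Goedel numbering is a bijection between formulas and natural numbers. -/
def equivNat : Form ≃ ℕ where
  toFun := code
  invFun := decode
  left_inv := decode_code
  right_inv := code_decode

/-- Formulas as objects of computation, through their Goedel numbers. -/
instance : Primcodable Form := Primcodable.ofEquiv ℕ equivNat

end Form

open Form

/-- `a` is a classical tautology: it is true under every valuation of formulas by truth values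
which respects `⊥` and implication (variables and boxed formulas are atoms). -/
def Tautology (a : Form) : Prop :=
  ∀ h : Form → Prop, ¬ h bot → (∀ b c, h (imp b c) ↔ (h b → h c)) → h a

/-- `L` is a normal modal logic. -/
structure Normal (L : Set Form) : Prop where
  taut : ∀ a, Tautology a → a ∈ L
  axK : imp (box (imp (var 0) (var 1))) (imp (box (var 0)) (box (var 1))) ∈ L
  mp : ∀ a b, imp a b ∈ L → a ∈ L → b ∈ L
  nec : ∀ a, a ∈ L → box a ∈ L
  subst : ∀ (s : ℕ → Form) a, a ∈ L → a.subst s ∈ L

/-- Löb's formula `□(□p → p) → □p`. -/
def loeb : Form := imp (box (imp (box (var 0)) (var 0))) (box (var 0))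

/-- The Gödel–Löb logic `GL`, the smallest normal modal logic containing Löb's formula. -/
def LogicGL : Set Form := {a | ∀ L : Set Form, Normal L → loeb ∈ L → a ∈ L}

/-- `a → b` has an interpolant in `L`. -/
def HasInterpolant (L : Set Form) (a b : Form) : Prop :=
  ∃ c : Form, c.vars ⊆ a.vars ∩ b.vars ∧ imp a c ∈ L ∧ imp c b ∈ L

/-- `L` is decidable. -/
def DecidableLogic (L : Set Form) : Prop := ComputablePred fun a : Form => a ∈ L

/-- The interpolant existence problem for `L` is decidable. -/
def DecidableIEP (L : Set Form) : Prop :=
  ComputablePred fun p : Form × Form => HasInterpolant L p.1 p.2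

end H539R3.IEP
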