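import Pool.Agent.H539R3.IEP.Defs

/-!
# The Kripke frames of the logic and its normality
-/

namespace H539R3.IEP
open Form

/-- Truth of a formula at a world of a Kripke model on `ℕ`. -/
def sat (R : ℕ → ℕ → Prop) (V : ℕ → ℕ → Prop) : Form → ℕ → Prop
  | var i, w => V i w
  | bot, _ => False
  | imp a b, w => sat R V a w → sat R V b w
  | box a, w => ∀ v, R w v → sat R V a v

/-- The accessibility relation of the frame `(m, N)`: the chain `0, …, N` in which every world
sees the smaller ones and, if `m < N`, a further world `N + 1` seen by the root `N` only and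
seeing `0, …, m - 1`. -/
def R (m N w v : ℕ) : Prop :=
  (w ≤ N ∧ v < w) ∨ (m < N ∧ w = N ∧ v = N + 1) ∨ (w = N + 1 ∧ v < m)

/-- Machine `e` does not stop on input `0` within `N` steps. -/
def NoHalt (N e : ℕ) : Prop :=
  Nat.Partrec.Code.evaln N (Denumerable.ofNat Nat.Partrec.Code e) 0 = none

/-- The frames of the logic. -/
def D (m N : ℕ) : Prop :=
  m = N ∨ (m + 2 ≤ N ∧ (m % 3 = 2 ∨ (m % 3 = 0 ∧ N % 2 = 0 ∧ NoHalt N (m / 3)) ∨
    (m % 3 = 1 ∧ N % 2 = 1 ∧ NoHalt N (m / 3))))

theorem D_le {m N : ℕ} (h : D m N) : m ≤ N := by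
  rcases h with h | h <;> omega

theorem D_self (N : ℕ) : D N N := Or.inl rfl

/-- The logic: all formulas true at the root of every model on every frame `(m, N)` with
`D m N`. -/
def Lg : Set Form := {a | ∀ m N, D m N → ∀ V, sat (R m N) V a N}

theorem sat_bisim {R1 R2 : ℕ → ℕ → Prop} {V1 V2 : ℕ → ℕ → Prop} (Z : ℕ → ℕ → Prop)
    (hv : ∀ w v, Z w v → ∀ i, V1 i w ↔ V2 i v)
    (forth : ∀ w v w', Z w v → R1 w w' → ∃ v', R2 v v' ∧ Z w' v')
    (back : ∀ w v v', Z w v → R2 v v' → ∃ w', R1 w w' ∧ Z w' v') :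
    ∀ a w v, Z w v → (sat R1 V1 a w ↔ sat R2 V2 a v) := by
  intro a
  induction a with
  | var i => intro w v h; exact hv w v h i
  | bot => intro w v _; exact Iff.rfl
  | imp a b iha ihb =>
    intro w v h
    exact imp_congr (iha w v h) (ihb w v h)
  | box a ih =>
    intro w v h
    constructor
    · intro hw v' hv'
      obtain ⟨w', h1, h2⟩ := back w v v' h hv'
      exact (ih w' v' h2).1 (hw w' h1)
    · intro hw w' hw'
      obtain ⟨v', h1, h2⟩ := forth w v w' h hw'
      exact (ih w' v' h2).2 (hw v' h1)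

theorem R_chain {m N w v : ℕ} (h : w < N) : R m N w v ↔ v < w := by
  unfold R; omega

theorem R_chain_self {j w v : ℕ} (h : w ≤ j) : R j j w v ↔ v < w := by
  unfold R; omega

theorem R_side {m N v : ℕ} : R m N (N + 1) v ↔ v < m := by
  unfold R; omega

theorem R_root {m N v : ℕ} : R m N N v ↔ v < N ∨ (m < N ∧ v = N + 1) := by
  unfold R; omega

theorem R_root_self {N v : ℕ} : R N N N v ↔ v < N := by
  unfold R; omega

/-- Chain worlds are roots of chains. -/
theorem sat_chain {m N j : ℕ} (V : ℕ → ℕ → Prop) (hj : j < N) (a : Form) :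
    ∀ w, w ≤ j → (sat (R m N) V a w ↔ sat (R j j) V a w) := by
  intro w hw
  refine sat_bisim (fun w v => w = v ∧ w ≤ j) ?_ ?_ ?_ a w w ⟨rfl, hw⟩
  · rintro w v ⟨rfl, _⟩ i; exact Iff.rfl
  · rintro w v w' ⟨rfl, h⟩ h1
    have h1' := (R_chain (m := m) (lt_of_le_of_lt h hj)).1 h1
    exact ⟨w', (R_chain_self h).2 h1', rfl, by omega⟩
  · rintro w v w' ⟨rfl, h⟩ h1
    have h1' := (R_chain_self h).1 h1
    exact ⟨w', (R_chain (m := m) (lt_of_le_of_lt h hj)).2 h1', rfl, by omega⟩

/-- The side world is the root of a chain. -/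
theorem sat_side {m N : ℕ} (V : ℕ → ℕ → Prop) (hm : m ≤ N) (a : Form) :
    sat (R m N) V a (N + 1) ↔
      sat (R m m) (fun i w => if w = m then V i (N + 1) else V i w) a m := by
  refine sat_bisim (fun w v => (w = v ∧ w < m) ∨ (w = N + 1 ∧ v = m)) ?_ ?_ ?_ a (N + 1) m
    (Or.inr ⟨rfl, rfl⟩)
  · rintro w v (⟨rfl, h⟩ | ⟨rfl, rfl⟩) i
    · rw [if_neg (by omega)]
    · rw [if_pos rfl]
  · rintro w v w' (⟨rfl, h⟩ | ⟨rfl, rfl⟩) h1
    · have h1' := (R_chain (m := m) (lt_of_lt_of_le h hm)).1 h1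
      exact ⟨w', (R_chain_self h.le).2 h1', Or.inl ⟨rfl, by omega⟩⟩
    · have h1' := R_side.1 h1
      exact ⟨w', (R_chain_self le_rfl).2 h1', Or.inl ⟨rfl, by omega⟩⟩
  · rintro w v w' (⟨rfl, h⟩ | ⟨rfl, rfl⟩) h1
    · have h1' := (R_chain_self h.le).1 h1
      exact ⟨w', (R_chain (m := m) (lt_of_lt_of_le h hm)).2 h1', Or.inl ⟨rfl, by omega⟩⟩
    · have h1' := (R_chain_self le_rfl).1 h1
      exact ⟨w', R_side.2 h1', Or.inl ⟨rfl, by omega⟩⟩

theorem sat_subst (Rr : ℕ → ℕ → Prop) (V : ℕ → ℕ → Prop) (s : ℕ → Form) (a : Form) :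
    ∀ w, sat Rr V (a.subst s) w ↔ sat Rr (fun i w => sat Rr V (s i) w) a w := by
  induction a with
  | var i => intro w; exact Iff.rfl
  | bot => intro w; exact Iff.rfl
  | imp a b iha ihb => intro w; exact imp_congr (iha w) (ihb w)
  | box a ih => intro w; exact forall_congr' fun v => imp_congr Iff.rfl (ih v)

/-- A formula of the logic is true at every world seen by a root. -/
theorem Lg_sat_succ {a : Form} (ha : a ∈ Lg) {m N : ℕ} (h : D m N) (V : ℕ → ℕ → Prop)
    {v : ℕ} (hv : R m N N v) : sat (R m N) V a v := by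
  rcases R_root.1 hv with h1 | ⟨h1, rfl⟩
  · rw [sat_chain V h1 a v le_rfl]
    exact ha v v (D_self v) V
  · rw [sat_side V (D_le h)]
    exact ha m m (D_self m) _

theorem Lg_normal : Normal Lg where
  taut := by
    intro a ha m N _ V
    exact ha (fun b => sat (R m N) V b N) (fun h => h) (fun b c => Iff.rfl)
  axK := by
    intro m N _ V h1 h2 v hv
    exact h1 v hv (h2 v hv)
  mp := by
    intro a b h1 h2 m N h V
    exact h1 m N h V (h2 m N h V)
  nec := by
    intro a ha m N h V v hv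
    exact Lg_sat_succ ha h V hv
  subst := by
    intro s a ha m N h V
    rw [sat_subst]
    exact ha m N h _

theorem loeb_mem : loeb ∈ Lg := by
  intro m N h V h1
  have key : ∀ v, v < N → sat (R m N) V (var 0) v := by
    intro v
    induction v using Nat.strong_induction_on with
    | _ v ih =>
      intro hv
      refine h1 v (R_root.2 (Or.inl hv)) ?_
      intro u hu
      rw [R_chain hv] at hu
      exact ih u hu (by omega)
  intro v hv
  rcases R_root.1 hv with h2 | ⟨h2, rfl⟩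
  · exact key v h2
  · refine h1 _ hv ?_
    intro u hu
    rw [R_side] at hu
    exact key u (by omega)

theorem GL_subset : LogicGL ⊆ Lg := fun _ ha => ha Lg Lg_normal loeb_mem

end H539R3.IEP
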