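import Pool.Agent.H539R3.IEP.Sem

/-!
# Shrinking countermodels
-/

namespace H539R3.IEP
open Form

/-- The skipping map: worlds of the smaller frame to worlds of the larger one. -/
def skip (j w : ℕ) : ℕ := if w < j then w else w + 1

/-- Removing a chain world `j` which is not the first one to refute a formula of Goedel number
at most `C` does not change the truth values of these formulas. -/
theorem remove {m N j C : ℕ} (V : ℕ → ℕ → Prop) (hmN : m ≤ N) (hj : j < N)
    (hcrit : ∀ b : Form, code b ≤ C → ¬ sat (R m N) V b j → ∃ i, i < j ∧ ¬ sat (R m N) V b i)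
    {m' : ℕ} (hm' : (j < m ∧ m' + 1 = m) ∨ (m ≤ j ∧ m' = m ∧ m + 2 ≤ N)) (b : Form) :
    code b ≤ C → ∀ w, w ≤ N →
      (sat (R m' (N - 1)) (fun i w => V i (skip j w)) b w ↔ sat (R m N) V b (skip j w)) := by
  induction b with
  | var i => intro _ w _; exact Iff.rfl
  | bot => intro _ w _; exact Iff.rfl
  | imp a b iha ihb =>
    intro hC w hw
    have h1 := Nat.left_le_pair (code a) (code b)
    have h2 := Nat.right_le_pair (code a) (code b)
    simp only [code] at hC
    exact imp_congr (iha (by omega) w hw) (ihb (by omega) w hw)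
  | box a ih =>
    intro hC w hw
    simp only [code] at hC
    have hC' : code a ≤ C := by omega
    have ih := ih hC'
    constructor
    · intro h u hu
      by_cases huj : u = j
      · subst huj
        by_contra hcon
        obtain ⟨i, hi, hi2⟩ := hcrit a hC' hcon
        apply hi2
        have e1 : skip u i = i := by unfold skip; rw [if_pos hi]
        rw [← e1]
        refine (ih i (by omega)).1 (h i ?_)
        unfold R skip at *
        split_ifs at * <;> omega
      · obtain ⟨v, hv1, hv2, hv3⟩ : ∃ v, v ≤ N ∧ skip j v = u ∧ R m' (N - 1) w v := by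
          refine ⟨if u < j then u else u - 1, ?_, ?_, ?_⟩
          · unfold R skip at *
            split_ifs at * <;> omega
          · unfold R skip at *
            split_ifs at * <;> omega
          · unfold R skip at *
            split_ifs at * <;> omega
        rw [← hv2]
        exact (ih v hv1).1 (h v hv3)
    · intro h v hv
      have hv1 : v ≤ N := by
        unfold R at hv; omega
      refine (ih v hv1).2 (h _ ?_)
      unfold R skip at *
      split_ifs at * <;> omega

/-- Pigeonhole: among `C + 2` worlds one is not the first to refute one of `C + 1` formulas. -/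
theorem pigeon (P : ℕ → ℕ → Prop) {lo hi C : ℕ} (h : lo + (C + 2) ≤ hi) :
    ∃ j, lo ≤ j ∧ j < hi ∧ ∀ c, c ≤ C → P c j → ∃ i, i < j ∧ P c i := by
  by_contra hcon
  push Not at hcon
  choose! f hf1 hf2 hf3 using hcon
  have hcard : (Finset.range (C + 1)).card < (Finset.Ico lo hi).card := by
    rw [Finset.card_range, Nat.card_Ico]; omega
  obtain ⟨x, hx, y, hy, hxy, hfxy⟩ := Finset.exists_ne_map_eq_of_card_lt_of_maps_to hcard
    (f := f) (by
      intro x hx
      rw [Finset.mem_coe, Finset.mem_Ico] at hx
      have := hf1 x hx.1 hx.2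
      simp only [Finset.coe_range, Set.mem_Iio]
      omega)
  rw [Finset.mem_Ico] at hx hy
  rcases Nat.lt_or_gt_of_ne hxy with hlt | hlt
  · exact hf3 y hy.1 hy.2 x hlt (hfxy ▸ hf2 x hx.1 hx.2)
  · exact hf3 x hx.1 hx.2 y hlt (hfxy ▸ hf2 y hy.1 hy.2)

/-- `a` is refuted at the root of a model on `(m, N)`. -/
def Ref (a : Form) (m N : ℕ) : Prop := ∃ V, ¬ sat (R m N) V a N

theorem ref_remove {a : Form} {m N lo hi m' : ℕ} (hmN : m ≤ N) (hhi : hi ≤ N)
    (hlo : lo + (code a + 2) ≤ hi)
    (hm' : ∀ j, lo ≤ j → j < hi → (j < m ∧ m' + 1 = m) ∨ (m ≤ j ∧ m' = m ∧ m + 2 ≤ N))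
    (h : Ref a m N) : Ref a m' (N - 1) := by
  obtain ⟨V, hV⟩ := h
  obtain ⟨j, hj1, hj2, hj3⟩ := pigeon (fun c j => ¬ sat (R m N) V (decode c) j) hlo
  refine ⟨fun i w => V i (skip j w), ?_⟩
  rw [remove V hmN (by omega) (C := code a) ?_ (hm' j hj1 hj2) a le_rfl (N - 1) (by omega)]
  · have : skip j (N - 1) = N := by
      unfold skip
      rw [if_neg (by omega)]
      omega
    rwa [this]
  · intro b hb hb2
    obtain ⟨i, hi1, hi2⟩ := hj3 (code b) hb (by rwa [decode_code])
    rw [decode_code] at hi2
    exact ⟨i, hi1, hi2⟩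

/-- Removing a world below the side world. -/
theorem ref_lower {a : Form} {m N : ℕ} (hmN : m ≤ N) (hm : code a + 2 ≤ m) (h : Ref a m N) :
    Ref a (m - 1) (N - 1) :=
  ref_remove (lo := 0) (hi := m) hmN hmN (by omega) (fun j _ hj => Or.inl ⟨hj, by omega⟩) h

/-- Removing a world above. -/
theorem ref_upper {a : Form} {m N : ℕ} (hm : m + (code a + 2) ≤ N) (h : Ref a m N) :
    Ref a m (N - 1) :=
  ref_remove (lo := m) (hi := N) (by omega) le_rfl hm
    (fun j hj _ => Or.inr ⟨hj, rfl, by omega⟩) h

theorem NoHalt_mono {N N' e : ℕ} (h : NoHalt N e) (hN : N' ≤ N) : NoHalt N' e := by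
  unfold NoHalt at *
  by_contra h1
  obtain ⟨x, hx⟩ := Option.ne_none_iff_exists'.1 h1
  have := Nat.Partrec.Code.evaln_mono hN (Option.mem_def.2 hx)
  rw [h] at this
  exact absurd this (by simp)

/-- A refutable formula is refutable on a small frame. -/
theorem ref_bound (a : Form) : ∀ N m, D m N → Ref a m N →
    ∃ N', N' < 2 * code a + 10 ∧ ∃ m', m' < N' + 1 ∧ D m' N' ∧ Ref a m' N' := by
  intro N
  induction N using Nat.strong_induction_on with
  | _ N ih =>
    intro m hD hR
    rcases hD with rfl | ⟨hmN, hD⟩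
    · by_cases h : code a + 2 ≤ m
      · exact ih (m - 1) (by omega) (m - 1) (D_self _) (ref_lower le_rfl h hR)
      · exact ⟨m, by omega, m, by omega, D_self _, hR⟩
    · by_cases h : code a + 5 ≤ m
      · have h1 := ref_lower (by omega) (by omega) hR
        have h2 := ref_lower (by omega) (by omega) h1
        have h3 := ref_lower (by omega) (by omega) h2
        rcases (by omega : m % 3 = 0 ∨ m % 3 = 1 ∨ m % 3 = 2) with h4 | h4 | h4
        · exact ih _ (by omega) _ (Or.inr ⟨by omega, Or.inl (by omega)⟩) h1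
        · exact ih _ (by omega) _ (Or.inr ⟨by omega, Or.inl (by omega)⟩) h2
        · exact ih _ (by omega) _ (Or.inr ⟨by omega, Or.inl (by omega)⟩) h3
      · by_cases h' : m + (code a + 4) ≤ N
        · have h1 := ref_upper (by omega) hR
          have h2 := ref_upper (by omega) h1
          refine ih _ (by omega) _ (Or.inr ⟨by omega, ?_⟩) h2
          rcases hD with h5 | ⟨h5, h6, h7⟩ | ⟨h5, h6, h7⟩
          · exact Or.inl h5
          · exact Or.inr (Or.inl ⟨h5, by omega, NoHalt_mono h7 (by omega)⟩)
          · exact Or.inr (Or.inr ⟨h5, by omega, NoHalt_mono h7 (by omega)⟩)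
        · exact ⟨N, by omega, m, by omega, Or.inr ⟨hmN, hD⟩, hR⟩

end H539R3.IEP
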