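import Pool.Agent.H539R3.IEP.Sem

/-!
# Interpolants and the halting problem
-/

namespace H539R3.IEP
open Form

theorem sat_neg {Rr V a w} : sat Rr V (neg a) w ↔ ¬ sat Rr V a w := Iff.rfl

theorem sat_and {Rr V a b w} : sat Rr V (Form.and a b) w ↔ (sat Rr V a w ∧ sat Rr V b w) := by
  unfold Form.and neg
  simp only [sat]
  tauto

theorem sat_dia {Rr V a w} : sat Rr V (dia a) w ↔ ∃ v, Rr w v ∧ sat Rr V a v := by
  unfold dia neg
  simp only [sat]
  constructor
  · intro h
    by_contra h1
    push Not at h1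
    exact h fun v hv => h1 v hv
  · rintro ⟨v, h1, h2⟩ h3
    exact h3 v h1 h2

/-- Truth value of a letterless formula at a world of rank `r`. -/
def ev : Form → ℕ → Prop
  | var _, _ => False
  | bot, _ => False
  | imp a b, r => ev a r → ev b r
  | box a, r => ∀ s, s < r → ev a s

/-- Modal depth. -/
def depth : Form → ℕ
  | var _ => 0
  | bot => 0
  | imp a b => max (depth a) (depth b)
  | box a => depth a + 1

theorem ev_stable (a : Form) : ∀ r r', depth a ≤ r → depth a ≤ r' → (ev a r ↔ ev a r') := by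
  induction a with
  | var i => intro r r' _ _; exact Iff.rfl
  | bot => intro r r' _ _; exact Iff.rfl
  | imp a b iha ihb =>
    intro r r' h h'
    simp only [depth] at h h'
    exact imp_congr (iha r r' (le_trans (le_max_left _ _) h) (le_trans (le_max_left _ _) h'))
      (ihb r r' (le_trans (le_max_right _ _) h) (le_trans (le_max_right _ _) h'))
  | box a ih =>
    have key : ∀ r r', depth a + 1 ≤ r → depth a + 1 ≤ r' → ev (box a) r → ev (box a) r' := by
      intro r r' h h' h1 s hs
      by_cases h2 : s < r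
      · exact h1 s h2
      · exact (ih (depth a) s le_rfl (by omega)).1 (h1 (depth a) (by omega))
    intro r r' h h'
    exact ⟨key r r' h h', key r' r h' h⟩

/-- The rank of a world. -/
def rk (m N w : ℕ) : ℕ := if w = N + 1 then m else w

theorem rk_side (m N : ℕ) : rk m N (N + 1) = m := if_pos rfl

theorem rk_chain {m N w : ℕ} (h : w ≤ N) : rk m N w = w := if_neg (by omega)

theorem sat_letterless {m N : ℕ} (hm : m ≤ N) (V : ℕ → ℕ → Prop) (a : Form)
    (ha : a.vars ⊆ ∅) : ∀ w, w ≤ N + 1 → (sat (R m N) V a w ↔ ev a (rk m N w)) := by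
  induction a with
  | var i => exact absurd (ha (show i ∈ ({i} : Set ℕ) from rfl)) (by simp)
  | bot => intro w _; exact Iff.rfl
  | imp a b iha ihb =>
    intro w hw
    exact imp_congr (iha (fun x hx => ha (Or.inl hx)) w hw) (ihb (fun x hx => ha (Or.inr hx)) w hw)
  | box a ih =>
    have ih := ih ha
    intro w hw
    rcases Nat.lt_or_ge w N with h | h
    · rw [rk_chain (by omega)]
      constructor
      · intro h1 s hs
        have h2 := (ih s (by omega)).1 (h1 s ((R_chain h).2 hs))
        rwa [rk_chain (by omega)] at h2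
      · intro h1 v hv
        have hv' := (R_chain h).1 hv
        refine (ih v (by omega)).2 ?_
        rw [rk_chain (by omega)]
        exact h1 v hv'
    · rcases Nat.eq_or_lt_of_le h with h0 | h0
      · subst h0
        rw [rk_chain (by omega)]
        constructor
        · intro h1 s hs
          have h2 := (ih s (by omega)).1 (h1 s (R_root.2 (Or.inl hs)))
          rwa [rk_chain (by omega)] at h2
        · intro h1 v hv
          rcases R_root.1 hv with h2 | ⟨h2, rfl⟩
          · refine (ih v (by omega)).2 ?_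
            rw [rk_chain (by omega)]
            exact h1 v h2
          · refine (ih _ (by omega)).2 ?_
            rw [rk_side]
            exact h1 m h2
      · have h0 : w = N + 1 := by omega
        subst h0
        rw [rk_side]
        constructor
        · intro h1 s hs
          have h2 := (ih s (by omega)).1 (h1 s (R_side.2 hs))
          rwa [rk_chain (by omega)] at h2
        · intro h1 v hv
          have hv' := R_side.1 hv
          refine (ih v (by omega)).2 ?_
          rw [rk_chain (by omega)]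
          exact h1 v hv'

theorem ev_neg {a r} : ev (neg a) r ↔ ¬ ev a r := Iff.rfl

theorem ev_and {a b r} : ev (Form.and a b) r ↔ (ev a r ∧ ev b r) := by
  unfold Form.and neg
  simp only [ev]
  tauto

theorem ev_or {a b r} : ev (Form.or a b) r ↔ (ev a r ∨ ev b r) := by
  unfold Form.or neg
  simp only [ev]
  tauto

theorem ev_dia {a r} : ev (dia a) r ↔ ∃ s, s < r ∧ ev a s := by
  unfold dia neg
  simp only [ev]
  constructor
  · intro h
    by_contra h1
    push Not at h1
    exact h fun v hv => h1 v hv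
  · rintro ⟨v, h1, h2⟩ h3
    exact h3 v h1 h2

/-- `◇^m ⊤`. -/
def dd : ℕ → Form
  | 0 => top
  | m + 1 => dia (dd m)

theorem ev_dd (m : ℕ) : ∀ r, ev (dd m) r ↔ m ≤ r := by
  induction m with
  | zero => intro r; simp [dd, top, neg, ev]
  | succ m ih =>
    intro r
    rw [dd, ev_dia]
    constructor
    · rintro ⟨s, h1, h2⟩
      have := (ih s).1 h2
      omega
    · intro h
      exact ⟨m, by omega, (ih m).2 le_rfl⟩

/-- The formula saying that the rank is exactly `m`. -/
def rho (m : ℕ) : Form := Form.and (dd m) (neg (dd (m + 1)))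

theorem ev_rho (m r : ℕ) : ev (rho m) r ↔ r = m := by
  rw [rho, ev_and, ev_neg, ev_dd, ev_dd]; omega

theorem vars_and (a b : Form) : (Form.and a b).vars = a.vars ∪ b.vars := by
  simp [Form.and, neg, vars]

theorem vars_dia (a : Form) : (dia a).vars = a.vars := by
  simp [dia, neg, vars]

theorem vars_neg (a : Form) : (neg a).vars = a.vars := by
  simp [neg, vars]

theorem vars_dd (m : ℕ) : (dd m).vars = ∅ := by
  induction m with
  | zero => simp [dd, top, neg, vars]
  | succ m ih => rw [dd, vars_dia, ih]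

theorem vars_rho (m : ℕ) : (rho m).vars = ∅ := by
  rw [rho, vars_and, vars_neg, vars_dd, vars_dd, Set.union_self]

/-- The formula `Φ_m(p_i)`, satisfiable only at roots of frames with side world of rank `m`. -/
def Phi (m i : ℕ) : Form :=
  Form.and (dd (m + 2)) (Form.and (dia (Form.and (rho m) (var i)))
    (neg (dia (dia (Form.and (rho m) (var i))))))

theorem vars_Phi (m i : ℕ) : (Phi m i).vars = {i} := by
  simp only [Phi, vars_and, vars_dia, vars_neg, vars_dd, vars_rho, vars]
  simp

theorem sat_rho {m' N : ℕ} (hm : m' ≤ N) (V : ℕ → ℕ → Prop) (m w : ℕ) (hw : w ≤ N + 1) :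
    sat (R m' N) V (rho m) w ↔ rk m' N w = m := by
  rw [sat_letterless hm V _ (by rw [vars_rho]) w hw, ev_rho]

theorem sat_dd {m' N : ℕ} (hm : m' ≤ N) (V : ℕ → ℕ → Prop) (m w : ℕ) (hw : w ≤ N + 1) :
    sat (R m' N) V (dd m) w ↔ m ≤ rk m' N w := by
  rw [sat_letterless hm V _ (by rw [vars_dd]) w hw, ev_dd]

/-- `Φ_m(p_i)` forces the frame to be `(m, N)` with `m + 2 ≤ N`. -/
theorem sat_Phi {m' N : ℕ} (hm : m' ≤ N) (V : ℕ → ℕ → Prop) (m i : ℕ)
    (h : sat (R m' N) V (Phi m i) N) : m' = m ∧ m + 2 ≤ N := by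
  rw [Phi, sat_and, sat_and, sat_neg, sat_dd hm V _ N (by omega), rk_chain le_rfl] at h
  obtain ⟨h1, h2, h3⟩ := h
  refine ⟨?_, h1⟩
  rw [sat_dia] at h2
  obtain ⟨v, hv, hv2⟩ := h2
  have hv3 := hv2
  rw [sat_and] at hv3
  obtain ⟨h4, h5⟩ := hv3
  rcases R_root.1 hv with h6 | ⟨h6, rfl⟩
  · rw [sat_rho hm V m v (by omega), rk_chain (by omega)] at h4
    subst h4
    exfalso
    apply h3
    rw [sat_dia]
    refine ⟨v + 1, R_root.2 (Or.inl (by omega)), ?_⟩
    rw [sat_dia]
    exact ⟨v, (R_chain (by omega)).2 (by omega), hv2⟩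
  · rw [sat_rho hm V m (N + 1) (by omega), rk_side] at h4
    exact h4

/-- Conversely `Φ_m(p_i)` is true at the root of `(m, N)` if `p_i` is true exactly at the side
world. -/
theorem sat_Phi' {m N : ℕ} (h : m + 2 ≤ N) (i : ℕ) :
    sat (R m N) (fun _ w => w = N + 1) (Phi m i) N := by
  have hm : m ≤ N := by omega
  rw [Phi, sat_and, sat_and, sat_neg, sat_dd hm _ _ N (by omega), rk_chain le_rfl]
  refine ⟨h, ?_, ?_⟩
  · rw [sat_dia]
    refine ⟨N + 1, R_root.2 (Or.inr ⟨by omega, rfl⟩), ?_⟩
    rw [sat_and, sat_rho hm _ _ _ le_rfl, rk_side]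
    exact ⟨rfl, rfl⟩
  · rw [sat_dia]
    rintro ⟨v, hv, h2⟩
    rw [sat_dia] at h2
    obtain ⟨u, hu, h3⟩ := h2
    rw [sat_and] at h3
    have h4 : u = N + 1 := h3.2
    subst h4
    rcases R_root.1 hv with h6 | ⟨h6, rfl⟩
    · have := (R_chain h6).1 hu
      omega
    · have := R_side.1 hu
      omega

/-- `Φ_m(p_i) → c` for letterless `c`. -/
theorem Phi_imp_iff (m i : ℕ) (c : Form) (hc : c.vars ⊆ ∅) :
    imp (Phi m i) c ∈ Lg ↔ ∀ N, D m N → m + 2 ≤ N → ev c N := by
  constructor
  · intro h N hD hN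
    have h1 := h m N hD _ (sat_Phi' hN i)
    rwa [sat_letterless (by omega) _ c hc N (by omega), rk_chain le_rfl] at h1
  · intro h m' N hD V h1
    obtain ⟨rfl, h2⟩ := sat_Phi (D_le hD) V m i h1
    rw [sat_letterless (by omega) _ c hc N (by omega), rk_chain le_rfl]
    exact h N hD h2

/-- `c → ¬ Φ_m(p_i)` for letterless `c`. -/
theorem imp_neg_Phi_iff (m i : ℕ) (c : Form) (hc : c.vars ⊆ ∅) :
    imp c (neg (Phi m i)) ∈ Lg ↔ ∀ N, D m N → m + 2 ≤ N → ¬ ev c N := by
  constructor
  · intro h N hD hN h2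
    refine h m N hD (fun _ w => w = N + 1) ?_ (sat_Phi' hN i)
    rwa [sat_letterless (by omega) _ c hc N (by omega), rk_chain le_rfl]
  · intro h m' N hD V h1 h2
    obtain ⟨rfl, h3⟩ := sat_Phi (D_le hD) V m i h2
    rw [sat_letterless (by omega) _ c hc N (by omega), rk_chain le_rfl] at h1
    exact h N hD h3 h1

theorem D_zero {e N : ℕ} (h : 3 * e + 2 ≤ N) :
    D (3 * e) N ↔ (N % 2 = 0 ∧ NoHalt N e) := by
  have h1 : 3 * e / 3 = e := by omega
  unfold D
  rw [h1]
  constructor
  · rintro (h2 | ⟨_, h2 | h2 | h2⟩)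
    · omega
    · omega
    · exact h2.2
    · omega
  · intro h2
    exact Or.inr ⟨h, Or.inr (Or.inl ⟨by omega, h2⟩)⟩

theorem D_one {e N : ℕ} (h : 3 * e + 1 + 2 ≤ N) :
    D (3 * e + 1) N ↔ (N % 2 = 1 ∧ NoHalt N e) := by
  have h1 : (3 * e + 1) / 3 = e := by omega
  unfold D
  rw [h1]
  constructor
  · rintro (h2 | ⟨_, h2 | h2 | h2⟩)
    · omega
    · omega
    · omega
    · exact h2.2
  · intro h2
    exact Or.inr ⟨h, Or.inr (Or.inr ⟨by omega, h2⟩)⟩

/-- The formula saying that the rank is even and less than `k`. -/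
def evenBelow : ℕ → Form
  | 0 => bot
  | k + 1 => if k % 2 = 0 then Form.or (rho k) (evenBelow k) else evenBelow k

theorem vars_evenBelow (k : ℕ) : (evenBelow k).vars = ∅ := by
  induction k with
  | zero => rfl
  | succ k ih =>
    rw [evenBelow]
    split_ifs
    · simp [Form.or, vars, vars_neg, vars_rho, ih]
    · exact ih

theorem ev_evenBelow (k r : ℕ) : ev (evenBelow k) r ↔ (r < k ∧ r % 2 = 0) := by
  induction k with
  | zero => simp [evenBelow, ev]
  | succ k ih =>
    rw [evenBelow]
    split_ifs with h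
    · rw [ev_or, ev_rho, ih]
      omega
    · rw [ih]
      omega

/-- The reduction of the halting problem. -/
theorem hasInterpolant_iff (e : ℕ) :
    HasInterpolant Lg (Phi (3 * e) 0) (neg (Phi (3 * e + 1) 1)) ↔ ∃ k, ¬ NoHalt k e := by
  have hv : (Phi (3 * e) 0).vars ∩ (neg (Phi (3 * e + 1) 1)).vars = ∅ := by
    rw [vars_neg, vars_Phi, vars_Phi]
    ext x
    simp only [Set.mem_inter_iff, Set.mem_singleton_iff, Set.mem_empty_iff_false, iff_false]
    omega
  unfold HasInterpolant
  rw [hv]
  constructor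
  · rintro ⟨c, hc, h1, h2⟩
    rw [Phi_imp_iff _ _ _ hc] at h1
    rw [imp_neg_Phi_iff _ _ _ hc] at h2
    by_contra hk
    push Not at hk
    have h3 := h1 (2 * (depth c + 3 * e + 3)) ((D_zero (by omega)).2 ⟨by omega, hk _⟩) (by omega)
    have h4 := h2 (2 * (depth c + 3 * e + 3) + 1) ((D_one (by omega)).2 ⟨by omega, hk _⟩)
      (by omega)
    exact h4 ((ev_stable c _ _ (by omega) (by omega)).1 h3)
  · rintro ⟨k, hk⟩
    have hmono : ∀ N, NoHalt N e → N < k := by
      intro N hN
      by_contra h
      apply hk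
      unfold NoHalt at *
      by_contra h1
      obtain ⟨x, hx⟩ := Option.ne_none_iff_exists'.1 h1
      have := Nat.Partrec.Code.evaln_mono (not_lt.1 h) (Option.mem_def.2 hx)
      rw [hN] at this
      exact absurd this (by simp)
    refine ⟨evenBelow k, by rw [vars_evenBelow], ?_, ?_⟩
    · rw [Phi_imp_iff _ _ _ (by rw [vars_evenBelow])]
      intro N hD hN
      have := (D_zero hN).1 hD
      rw [ev_evenBelow]
      exact ⟨hmono N this.2, this.1⟩
    · rw [imp_neg_Phi_iff _ _ _ (by rw [vars_evenBelow])]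
      intro N hD hN h1
      have := (D_one hN).1 hD
      rw [ev_evenBelow] at h1
      omega

theorem exists_halt_iff (c : Nat.Partrec.Code) :
    (∃ k, ¬ NoHalt k (Encodable.encode c)) ↔ (c.eval 0).Dom := by
  unfold NoHalt
  simp only [Denumerable.ofNat_encode]
  constructor
  · rintro ⟨k, hk⟩
    obtain ⟨x, hx⟩ := Option.ne_none_iff_exists'.1 hk
    exact Part.dom_iff_mem.2 ⟨x, Nat.Partrec.Code.evaln_complete.2 ⟨k, Option.mem_def.2 hx⟩⟩
  · intro h
    obtain ⟨x, hx⟩ := Part.dom_iff_mem.1 h
    obtain ⟨k, hk⟩ := Nat.Partrec.Code.evaln_complete.1 hx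
    exact ⟨k, Option.ne_none_iff_exists'.2 ⟨x, hk⟩⟩

/-! ## The reduction is computable -/

/-- Goedel number of `dd m`. -/
def ddN : ℕ → ℕ
  | 0 => 3 * Nat.pair 0 0 + 2
  | m + 1 => 3 * Nat.pair (3 * (3 * Nat.pair (ddN m) 0 + 2) + 3) 0 + 2

theorem code_dd (m : ℕ) : code (dd m) = ddN m := by
  induction m with
  | zero => rfl
  | succ m ih =>
    rw [dd, ddN, ← ih]
    rfl

def nimp (a b : ℕ) : ℕ := 3 * Nat.pair a b + 2
def nneg (a : ℕ) : ℕ := nimp a 0
def nbox (a : ℕ) : ℕ := 3 * a + 3
def nand (a b : ℕ) : ℕ := nneg (nimp a (nneg b))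
def ndia (a : ℕ) : ℕ := nneg (nbox (nneg a))

theorem code_neg (a : Form) : code (neg a) = nneg (code a) := rfl
theorem code_and (a b : Form) : code (Form.and a b) = nand (code a) (code b) := rfl
theorem code_dia (a : Form) : code (dia a) = ndia (code a) := rfl

def rhoN (m : ℕ) : ℕ := nand (ddN m) (nneg (ddN (m + 1)))

theorem code_rho (m : ℕ) : code (rho m) = rhoN m := by
  rw [rho, code_and, code_neg, code_dd, code_dd]; rfl

def PhiN (m i : ℕ) : ℕ :=
  nand (ddN (m + 2)) (nand (ndia (nand (rhoN m) (3 * i + 1)))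
    (nneg (ndia (ndia (nand (rhoN m) (3 * i + 1))))))

theorem code_Phi (m i : ℕ) : code (Phi m i) = PhiN m i := by
  simp only [Phi, PhiN, code_and, code_neg, code_dia, code_rho, code_dd]
  rfl

theorem primrec_nimp : Primrec₂ nimp :=
  (Primrec.nat_add.comp (Primrec.nat_mul.comp (Primrec.const 3) Primrec₂.natPair)
    (Primrec.const 2)).to₂

theorem primrec_nneg : Primrec nneg := primrec_nimp.comp Primrec.id (Primrec.const 0)

theorem primrec_nbox : Primrec nbox :=
  Primrec.nat_add.comp (Primrec.nat_mul.comp (Primrec.const 3) Primrec.id) (Primrec.const 3)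

theorem primrec_nand : Primrec₂ nand :=
  primrec_nneg.comp (primrec_nimp.comp Primrec.fst (primrec_nneg.comp Primrec.snd))

theorem primrec_ndia : Primrec ndia :=
  primrec_nneg.comp (primrec_nbox.comp primrec_nneg)

theorem primrec_ddN : Primrec ddN := by
  have h : Primrec fun m : ℕ => Nat.rec (motive := fun _ => ℕ) (3 * Nat.pair 0 0 + 2)
      (fun _ r => ndia r) m :=
    Primrec.nat_rec₁ _ (primrec_ndia.comp Primrec.snd).to₂
  refine h.of_eq fun m => ?_
  induction m with
  | zero => rfl
  | succ m ih => rw [ddN, ← ih]; rfl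

theorem primrec_rhoN : Primrec rhoN :=
  primrec_nand.comp primrec_ddN (primrec_nneg.comp (primrec_ddN.comp Primrec.succ))

theorem primrec_PhiN (i : ℕ) : Primrec fun m => PhiN m i := by
  unfold PhiN
  have h1 : Primrec fun m => nand (rhoN m) (3 * i + 1) :=
    primrec_nand.comp primrec_rhoN (Primrec.const _)
  exact primrec_nand.comp (primrec_ddN.comp (Primrec.succ.comp Primrec.succ))
    (primrec_nand.comp (primrec_ndia.comp h1)
      (primrec_nneg.comp (primrec_ndia.comp (primrec_ndia.comp h1))))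

theorem computable_form {α : Type} [Primcodable α] {f : α → Form}
    (h : Primrec fun a => code (f a)) : Computable f :=
  ((Primrec.of_equiv_iff equivNat).1 h).to_comp

theorem computable_reduction : Computable fun c : Nat.Partrec.Code =>
    ((Phi (3 * Encodable.encode c) 0, neg (Phi (3 * Encodable.encode c + 1) 1)) : Form × Form) := by
  have he : Primrec fun c : Nat.Partrec.Code => 3 * Encodable.encode c :=
    Primrec.nat_mul.comp (Primrec.const 3) Primrec.encode
  refine Computable.pair (computable_form ?_) (computable_form ?_)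
  · refine ((primrec_PhiN 0).comp he).of_eq fun c => ?_
    rw [code_Phi]
  · refine (primrec_nneg.comp ((primrec_PhiN 1).comp (Primrec.succ.comp he))).of_eq fun c => ?_
    rw [code_neg, code_Phi]

/-- The interpolant existence problem of the logic is undecidable. -/
theorem not_decidableIEP : ¬ DecidableIEP Lg := by
  intro h
  apply ComputablePred.halting_problem 0
  obtain ⟨f, hf, hf2⟩ := ComputablePred.computable_iff.1 h
  refine ComputablePred.computable_iff.2 ⟨fun c => f _, hf.comp computable_reduction, ?_⟩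
  funext c
  have h1 := congrFun hf2 ((Phi (3 * Encodable.encode c) 0,
    neg (Phi (3 * Encodable.encode c + 1) 1)) : Form × Form)
  rw [← h1]
  exact propext ((exists_halt_iff c).symm.trans (hasInterpolant_iff _).symm)

end H539R3.IEP
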